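import Mathlib
import Pool.Agent.Helper15.RT.QDefs
import Pool.Agent.Helper15.RT.VP
import Pool.Agent.Helper21.AEC.SMat

/-!
# The chain of encirclings
-/

open Finset
open scoped Real

namespace Pool.Agent.Helper24.RTE

open Pool.Agent.Helper15.AllN Pool.Agent.Helper15.RT Pool.Agent.Helper21.AEC

/-! ### conjugation of the twisted sums -/

section gauss

variable {N r : ℕ} [NeZero N] [NeZero r]

omit [NeZero N] [NeZero r] in
theorem map_neg_latL : (latL N r).map (AddEquiv.neg (Fin N → ℤ) : (Fin N → ℤ) →+ (Fin N → ℤ)) =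
    latL N r := by
  ext v
  constructor
  · rintro ⟨u, hu, rfl⟩
    exact (latL N r).neg_mem hu
  · intro hv
    exact ⟨-v, (latL N r).neg_mem hv, by simp⟩

theorem qsum_neg {F : (Fin N → ℤ) → ℂ} (hF : Inv N r F) :
    qsum N r (fun v => F (-v)) = qsum N r F :=
  qsum_congr_equiv hF (AddEquiv.neg (Fin N → ℤ)) map_neg_latL

theorem Gs_neg (a : ℤ) (u : Fin N → ℤ) : Gs N r a (-u) = Gs N r a u := by
  rw [Gs, Gs, ← qsum_neg (gf_inv a u)]
  congr 1
  funext v
  rw [gf, gf, ipZ_neg_left, ipZ_neg_right, ipZ_neg_left, ipZ_neg_right, neg_neg]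

theorem conj_Gs (a : ℤ) (u : Fin N → ℤ) :
    (starRingEnd ℂ) (Gs N r a u) = Gs N r (-a) u := by
  rw [← Gs_neg (-a) u, Gs, Gs, conj_qsum]
  congr 1
  funext v
  rw [gf, gf, conj_ee, ipZ_neg_right]
  congr 1
  push_cast
  ring

end gauss

theorem ee_zpow (a : ℤ) (t : ℝ) : ee t ^ a = ee (a * t) := by
  rw [ee, ee, ← Complex.exp_int_mul]
  congr 1
  push_cast
  ring

theorem Smat_symm (N r : ℕ) (x y : Fin N → ℕ) : Smat N r x y = Smat N r y x := by
  rw [Smat_alt, Smat_alt, alt_comm]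

theorem theta_vac (N r : ℕ) : theta N r (vac N) = 1 := by
  rw [theta]
  simp

theorem theta_ne (N r : ℕ) (x : Fin N → ℕ) : theta N r x ≠ 0 := by
  intro h
  have := norm_theta N r x
  rw [h, norm_zero] at this
  exact zero_ne_one this

/-- the twisted sums -/
noncomputable def EE (N r : ℕ) (a : ℤ) (u : Fin N → ℕ) : ℂ :=
  ∑ x ∈ colors N r, (S0 N r x : ℂ) * theta N r x ^ a * Smat N r x u

theorem EE_eq {N r : ℕ} [NeZero N] [NeZero r] (a : ℤ) (u : Fin N → ℕ) :
    EE N r a u = pf N r * pf N r * ee (-(ipZ (zc (vac N)) (zc (vac N)) / (2 * r))) ^ a *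
      ∑ σ : Equiv.Perm (Fin N), sg σ *
        Gs N r a (zc (vac N) + (1 : ℤ) • (fun i => zc u (σ i))) := by
  have hN : 0 < N := Nat.pos_of_ne_zero (NeZero.ne N)
  have hr : 0 < r := Nat.pos_of_ne_zero (NeZero.ne r)
  rw [← color_sum_eq (N := N) (r := r), EE, Finset.mul_sum]
  refine Finset.sum_congr rfl fun v hv => ?_
  rw [S0_eq hN hr hv, Smat_alt, Smat_alt, theta_ee, alt_comm 1 (zc v) (zc u), mul_zpow, ee_zpow,
    ee_zpow]
  have e1 : (a : ℝ) * (ipZ (zc v) (zc v) / (2 * (r : ℝ))) =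
    (a : ℝ) * ipZ (fun i => (v i : ℤ)) (fun i => (v i : ℤ)) / (2 * r) := by
    have : ipZ (zc v) (zc v) = ipZ (fun i => (v i : ℤ)) (fun i => (v i : ℤ)) := rfl
    rw [this]
    ring
  rw [e1]
  have e2 : alt N r 1 (zc (vac N)) (zc v) = alt N r 1 (zc (vac N)) (fun i => (v i : ℤ)) := rfl
  have e3 : alt N r 1 (zc u) (zc v) = alt N r 1 (zc u) (fun i => (v i : ℤ)) := rfl
  rw [e2, e3]
  ring

theorem conj_pf_sq (N r : ℕ) : (starRingEnd ℂ) (pf N r * pf N r) = pf N r * pf N r := by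
  have h1 : pf N r * pf N r = (((-1 : ℝ) ^ (N * (N - 1) / 2) / (nrm N r * nrm N r) : ℝ) : ℂ) := by
    rw [pf, div_mul_div_comm, ← mul_pow, Complex.I_mul_I]
    push_cast
    rfl
  rw [h1, Complex.conj_ofReal]

theorem conj_EE {N r : ℕ} (hN : 0 < N) (hr : 0 < r) (a : ℤ) (u : Fin N → ℕ) :
    (starRingEnd ℂ) (EE N r a u) = EE N r (-a) u := by
  have i1 : NeZero N := ⟨hN.ne'⟩
  have i2 : NeZero r := ⟨hr.ne'⟩
  rw [EE_eq, EE_eq, map_mul, map_mul, conj_pf_sq, map_sum]
  congr 1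
  · congr 1
    rw [ee_zpow, ee_zpow, conj_ee]
    congr 1
    push_cast
    ring
  · refine Finset.sum_congr rfl fun σ _ => ?_
    rw [map_mul, conj_sg, conj_Gs]

theorem eN_eq_EE (N r : ℕ) (u : Fin N → ℕ) : eN N r u = EE N r ((2 * N : ℕ) : ℤ) u := by
  rw [eN, EE]
  simp only [zpow_natCast]

/-! ### the operators -/

section operators

variable {N r : ℕ}

/-- the space of functions on the configurations -/
abbrev Fn (N : ℕ) : Type := (Fin N → ℕ) → ℂ

/-- the sum of the encirclings over the colours -/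
noncomputable def TT (N r : ℕ) (K : (Fin N → ℕ) → Fn N →ₗ[ℂ] Fn N) (a : ℤ) : Fn N →ₗ[ℂ] Fn N :=
  ∑ x ∈ colors N r, ((S0 N r x : ℂ) * theta N r x ^ a) • K x

/-- superposition of the columns of `S` -/
noncomputable def gS (N r : ℕ) (w : (Fin N → ℕ) → ℂ) : Fn N :=
  fun l => ∑ y ∈ colors N r, w y * Smat N r l y

theorem TT_apply (K : (Fin N → ℕ) → Fn N →ₗ[ℂ] Fn N) (a : ℤ) (g : Fn N) (l : Fin N → ℕ) :
    TT N r K a g l = ∑ x ∈ colors N r, ((S0 N r x : ℂ) * theta N r x ^ a) * K x g l := by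
  rw [TT, LinearMap.sum_apply, Finset.sum_apply]
  rfl

theorem TT_congr {K : (Fin N → ℕ) → Fn N →ₗ[ℂ] Fn N}
    (hcK : ∀ x g g', (∀ c, alc r c → g c = g' c) → ∀ l, alc r l → K x g l = K x g' l) (a : ℤ)
    {g g' : Fn N} (h : ∀ c, alc r c → g c = g' c) (l : Fin N → ℕ) (hl : alc r l) :
    TT N r K a g l = TT N r K a g' l := by
  rw [TT_apply, TT_apply]
  exact Finset.sum_congr rfl fun x _ => by rw [hcK x g g' h l hl]

theorem TT_gS {K : (Fin N → ℕ) → Fn N →ₗ[ℂ] Fn N} {δ : ℤ}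
    (hK : ∀ x ∈ colors N r, ∀ y ∈ colors N r, ∀ l, alc r l →
      K x (fun c => Smat N r c y) l =
        theta N r x ^ δ * (Smat N r x y / Smat N r (vac N) y) * Smat N r l y) (a : ℤ)
    (w : (Fin N → ℕ) → ℂ) (l : Fin N → ℕ) (hl : alc r l) :
    TT N r K a (gS N r w) l = gS N r (fun y => w y * (EE N r (a + δ) y / Smat N r (vac N) y)) l := by
  have h1 : gS N r w = ∑ y ∈ colors N r, w y • (fun c => Smat N r c y : Fn N) := by
    funext l
    rw [gS, Finset.sum_apply]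
    rfl
  rw [TT_apply, h1, gS]
  have h2 : ∀ x ∈ colors N r, ((S0 N r x : ℂ) * theta N r x ^ a) *
      K x (∑ y ∈ colors N r, w y • (fun c => Smat N r c y : Fn N)) l =
      ∑ y ∈ colors N r, (w y / Smat N r (vac N) y * Smat N r l y) *
        ((S0 N r x : ℂ) * theta N r x ^ (a + δ) * Smat N r x y) := by
    intro x hx
    rw [map_sum, Finset.sum_apply, Finset.mul_sum]
    refine Finset.sum_congr rfl fun y hy => ?_
    rw [map_smul, Pi.smul_apply, smul_eq_mul, hK x hx y hy l hl, zpow_add₀ (theta_ne N r x)]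
    ring
  rw [Finset.sum_congr rfl h2, Finset.sum_comm]
  refine Finset.sum_congr rfl fun y _ => ?_
  rw [← Finset.mul_sum, EE]
  ring

end operators

/-! ### sums over 5-tuples -/

theorem sum_pi_succ {α M : Type*} [DecidableEq α] [AddCommMonoid M] (n : ℕ) (C : Finset α)
    (f : (Fin (n + 1) → α) → M) :
    ∑ e ∈ Fintype.piFinset (fun _ : Fin (n + 1) => C), f e =
      ∑ a ∈ C, ∑ e ∈ Fintype.piFinset (fun _ : Fin n => C),
        f (Matrix.vecCons a e) := by
  rw [← Finset.sum_product']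
  refine Finset.sum_bij' (fun e _ => (e 0, fun i => e i.succ))
    (fun p _ => (Fin.cons p.1 p.2 : Fin (n + 1) → α)) ?_ ?_ ?_ ?_ ?_
  · intro e he
    have := Fintype.mem_piFinset.1 he
    exact Finset.mem_product.2 ⟨this 0, Fintype.mem_piFinset.2 fun i => this i.succ⟩
  · intro p hp
    obtain ⟨h1, h2⟩ := Finset.mem_product.1 hp
    refine Fintype.mem_piFinset.2 fun i => ?_
    refine Fin.cases ?_ (fun i => ?_) i
    · rw [Fin.cons_zero]; exact h1
    · rw [Fin.cons_succ]; exact Fintype.mem_piFinset.1 h2 i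
  · intro e _
    exact Fin.cons_self_tail e
  · intro p _
    simp
  · intro e _
    have : (Matrix.vecCons (e 0) (fun i => e i.succ) : Fin (n + 1) → α) = e :=
      Fin.cons_self_tail e
    rw [this]

theorem sum_pi_five {α M : Type*} [DecidableEq α] [AddCommMonoid M] (C : Finset α)
    (f : (Fin 5 → α) → M) :
    ∑ e ∈ Fintype.piFinset (fun _ : Fin 5 => C), f e =
      ∑ x0 ∈ C, ∑ x1 ∈ C, ∑ x2 ∈ C, ∑ x3 ∈ C, ∑ x4 ∈ C, f ![x0, x1, x2, x3, x4] := by
  rw [sum_pi_succ]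
  refine Finset.sum_congr rfl fun x0 _ => ?_
  rw [sum_pi_succ]
  refine Finset.sum_congr rfl fun x1 _ => ?_
  rw [sum_pi_succ]
  refine Finset.sum_congr rfl fun x2 _ => ?_
  rw [sum_pi_succ]
  refine Finset.sum_congr rfl fun x3 _ => ?_
  rw [sum_pi_succ]
  refine Finset.sum_congr rfl fun x4 _ => ?_
  rw [Fintype.piFinset_of_isEmpty, Finset.univ_unique, Finset.sum_singleton]
  congr 1

theorem TT_functional {N r : ℕ} (φ : Fn N →ₗ[ℂ] ℂ) (K : (Fin N → ℕ) → Fn N →ₗ[ℂ] Fn N) (a : ℤ)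
    (H : Fn N) : φ (TT N r K a H) =
      ∑ x ∈ colors N r, ((S0 N r x : ℂ) * theta N r x ^ a) * φ (K x H) := by
  rw [TT, LinearMap.sum_apply, map_sum]
  refine Finset.sum_congr rfl fun x _ => ?_
  rw [LinearMap.smul_apply, map_smul, smul_eq_mul]

/-! ### the chain -/

/-- the multiple sum as a composition of operators -/
theorem multi_sum {N r : ℕ} (K K' : (Fin N → ℕ) → Fn N →ₗ[ℂ] Fn N) (g0 : Fn N)
    (l0 : Fin N → ℕ) :
    ∑ x ∈ Fintype.piFinset fun _ : Fin 5 => colors N r,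
        (∏ i, (S0 N r (x i) : ℂ) * theta N r (x i) ^ fr N i) *
          K (x 0) (K (x 1) (K (x 2) (fun l => theta N r l * K' (x 3) (K' (x 4) g0) l))) l0 =
      TT N r K (2 * N) (TT N r K (-2 * N) (TT N r K (-1) (fun l => theta N r l *
        TT N r K' (2 * N - 1) (TT N r K' (-2 * N - 1) g0) l))) l0 := by
  have hM : ∀ g : Fn N, (fun l => theta N r l * g l) = LinearMap.mulLeft ℂ (theta N r : Fn N) g :=
    fun g => rfl
  rw [sum_pi_five]
  simp only [hM]
  symm
  refine (TT_functional (LinearMap.proj l0) K (2 * N) _).trans ?_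
  refine Finset.sum_congr rfl fun x0 _ => ?_
  refine (congrArg _ (TT_functional ((LinearMap.proj l0).comp (K x0)) K (-2 * N) _)).trans ?_
  rw [Finset.mul_sum]
  refine Finset.sum_congr rfl fun x1 _ => ?_
  refine (congrArg _ (congrArg _ (TT_functional (((LinearMap.proj l0).comp (K x0)).comp (K x1)) K
    (-1) _))).trans ?_
  rw [Finset.mul_sum, Finset.mul_sum]
  refine Finset.sum_congr rfl fun x2 _ => ?_
  refine (congrArg _ (congrArg _ (congrArg _ (TT_functional
    (((((LinearMap.proj l0).comp (K x0)).comp (K x1)).comp (K x2)).comp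
      (LinearMap.mulLeft ℂ (theta N r : Fn N))) K' (2 * N - 1) _)))).trans ?_
  rw [Finset.mul_sum, Finset.mul_sum, Finset.mul_sum]
  refine Finset.sum_congr rfl fun x3 _ => ?_
  refine (congrArg _ (congrArg _ (congrArg _ (congrArg _ (TT_functional
    ((((((LinearMap.proj l0).comp (K x0)).comp (K x1)).comp (K x2)).comp
      (LinearMap.mulLeft ℂ (theta N r : Fn N))).comp (K' x3)) K' (-2 * N - 1) _))))).trans ?_
  rw [Finset.mul_sum, Finset.mul_sum, Finset.mul_sum, Finset.mul_sum]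
  refine Finset.sum_congr rfl fun x4 _ => ?_
  rw [Fin.prod_univ_five]
  simp only [LinearMap.comp_apply, LinearMap.proj_apply]
  have e0 : ![x0, x1, x2, x3, x4] 0 = x0 := rfl
  have e1 : ![x0, x1, x2, x3, x4] 1 = x1 := rfl
  have e2 : ![x0, x1, x2, x3, x4] 2 = x2 := rfl
  have e3 : ![x0, x1, x2, x3, x4] 3 = x3 := rfl
  have e4 : ![x0, x1, x2, x3, x4] 4 = x4 := rfl
  have f0 : fr N 0 = 2 * N := rfl
  have f1 : fr N 1 = -2 * N := rfl
  have f2 : fr N 2 = -1 := rfl
  have f3 : fr N 3 = 2 * N - 1 := rfl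
  have f4 : fr N 4 = -2 * N - 1 := rfl
  rw [e0, e1, e2, e3, e4, f0, f1, f2, f3, f4]
  ring

/-- the weight -/
noncomputable def WW (N r : ℕ) (u : Fin N → ℕ) : ℂ :=
  EE N r (2 * N) u * EE N r (-2 * N) u / Smat N r (vac N) u

theorem WW_eq {N r : ℕ} (hN : 0 < N) (hr : 0 < r) {u : Fin N → ℕ} (hu : u ∈ colors N r) :
    WW N r u = ((‖eN N r u‖ ^ 2 / S0 N r u : ℝ) : ℂ) := by
  have h1 : EE N r (-2 * N) u = (starRingEnd ℂ) (EE N r (2 * N) u) := by
    rw [conj_EE hN hr]
    congr 1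
  have h2 : EE N r (2 * N) u = eN N r u := by
    rw [eN_eq_EE]
    push_cast
    rfl
  rw [WW, h1, Complex.mul_conj, Complex.normSq_eq_norm_sq, h2, ← S0_eq hN hr hu]
  push_cast
  rfl

theorem chain {N r : ℕ} (hN : 2 ≤ N) (hNr : N ≤ r)
    (K K' : (Fin N → ℕ) → ((Fin N → ℕ) → ℂ) →ₗ[ℂ] ((Fin N → ℕ) → ℂ))
    (hcK : ∀ x g g', (∀ c, alc r c → g c = g' c) → ∀ l, alc r l → K x g l = K x g' l)
    (hcK' : ∀ x g g', (∀ c, alc r c → g c = g' c) → ∀ l, alc r l → K' x g l = K' x g' l)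
    (hK : ∀ x ∈ colors N r, ∀ y ∈ colors N r, ∀ l, alc r l →
      K x (fun c => Smat N r c y) l = Smat N r x y / Smat N r (vac N) y * Smat N r l y)
    (hK' : ∀ x ∈ colors N r, ∀ y ∈ colors N r, ∀ l, alc r l →
      K' x (fun c => Smat N r c y) l =
        theta N r x * (Smat N r x y / Smat N r (vac N) y) * Smat N r l y) :
    ∃ c : ℂ, ‖c‖ = 1 ∧
      ∑ x ∈ Fintype.piFinset fun _ : Fin 5 => colors N r,
        (∏ i, (S0 N r (x i) : ℂ) * theta N r (x i) ^ fr N i) *
          K (x 0) (K (x 1) (K (x 2) (fun l => theta N r l *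
            K' (x 3) (K' (x 4) (fun l' => (theta N r l')⁻¹ * Smat N r l' (vac N))) l))) (vac N) =
        c * (starRingEnd ℂ) (Zred N r) := by
  have hN0 : 0 < N := by omega
  have hr : 0 < r := by omega
  obtain ⟨c1, hc1, hR1⟩ := Rpos hN0 hr
  obtain ⟨c0, hc0, hR0⟩ := R0 hN0 hr
  have hc1' : c1 ≠ 0 := by
    intro h
    rw [h, norm_zero] at hc1
    exact zero_ne_one hc1
  have hc0' : c0 ≠ 0 := by
    intro h
    rw [h, norm_zero] at hc0
    exact zero_ne_one hc0
  set g0 : Fn N := fun l' => (theta N r l')⁻¹ * Smat N r l' (vac N) with hg0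
  rw [multi_sum K K' g0 (vac N)]
  have hvac : alc r (vac N) := alc_vac hNr
  have hSne : ∀ u ∈ colors N r, Smat N r (vac N) u ≠ 0 := by
    intro u hu
    obtain ⟨n, rfl⟩ : ∃ n, N = n + 1 := ⟨N - 1, by omega⟩
    rw [Smat_vac hN0 hr hu]
    have h1 := norm_D_vac_pos hu hr
    have h2 := nrm_pos hN0 hr
    exact_mod_cast (div_pos h1 h2).ne'
  have hK0 : ∀ x ∈ colors N r, ∀ y ∈ colors N r, ∀ l, alc r l →
      K x (fun c => Smat N r c y) l =
        theta N r x ^ (0 : ℤ) * (Smat N r x y / Smat N r (vac N) y) * Smat N r l y := by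
    intro x hx y hy l hl
    rw [zpow_zero, one_mul, hK x hx y hy l hl]
  have hK1 : ∀ x ∈ colors N r, ∀ y ∈ colors N r, ∀ l, alc r l →
      K' x (fun c => Smat N r c y) l =
        theta N r x ^ (1 : ℤ) * (Smat N r x y / Smat N r (vac N) y) * Smat N r l y := by
    intro x hx y hy l hl
    rw [zpow_one, hK' x hx y hy l hl]
  -- step 1
  have s1 : ∀ l, alc r l → g0 l = gS N r (fun u => c1⁻¹ * (theta N r u * Smat N r (vac N) u)) l := by
    intro l _
    have h1 := hR1 l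
    rw [hg0, gS]
    simp only
    have h2 : (theta N r l)⁻¹ * Smat N r l (vac N) =
        c1⁻¹ * (c1 * (theta N r l)⁻¹ * Smat N r l (vac N)) := by
      field_simp
    rw [h2, ← h1, Finset.mul_sum]
    refine Finset.sum_congr rfl fun u _ => ?_
    rw [Smat_symm N r u (vac N)]
    ring
  -- step 2
  have s2 : ∀ l, alc r l → TT N r K' (2 * N - 1) (TT N r K' (-2 * N - 1) g0) l =
      gS N r (fun u => c1⁻¹ * (theta N r u * WW N r u)) l := by
    intro l hl
    have h1 : ∀ l, alc r l → TT N r K' (-2 * N - 1) g0 l = gS N r (fun y =>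
        c1⁻¹ * (theta N r y * Smat N r (vac N) y) *
          (EE N r (-2 * N - 1 + 1) y / Smat N r (vac N) y)) l := by
      intro l hl
      rw [TT_congr hcK' (-2 * N - 1) s1 l hl, TT_gS hK1 _ _ l hl]
    rw [TT_congr hcK' (2 * N - 1) h1 l hl, TT_gS hK1 _ _ l hl, gS, gS]
    refine Finset.sum_congr rfl fun u hu => ?_
    have h2 := hSne u hu
    have e1 : (-2 * (N : ℤ) - 1 + 1) = -2 * N := by ring
    have e2 : (2 * (N : ℤ) - 1 + 1) = 2 * N := by ring
    rw [e1, e2, WW]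
    field_simp
  -- step 3
  have s3 : ∀ l, alc r l → theta N r l * TT N r K' (2 * N - 1) (TT N r K' (-2 * N - 1) g0) l =
      gS N r (fun v => c1⁻¹ * c0⁻¹ * (theta N r v)⁻¹ *
        ∑ u ∈ colors N r, WW N r u * (starRingEnd ℂ) (Smat N r v u)) l := by
    intro l hl
    rw [s2 l hl, gS, gS, Finset.mul_sum]
    have h1 : ∀ u ∈ colors N r, theta N r l * (c1⁻¹ * (theta N r u * WW N r u) * Smat N r l u) =
        ∑ v ∈ colors N r, c1⁻¹ * c0⁻¹ * (theta N r v)⁻¹ *
          (WW N r u * (starRingEnd ℂ) (Smat N r v u)) * Smat N r l v := by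
      intro u _
      have h2 := hR0 l u
      have h3 : theta N r l * (c1⁻¹ * (theta N r u * WW N r u) * Smat N r l u) =
          (c1⁻¹ * c0⁻¹ * WW N r u) * (c0 * theta N r l * theta N r u * Smat N r l u) := by
        field_simp
      rw [h3, ← h2, Finset.mul_sum]
      exact Finset.sum_congr rfl fun v _ => by ring
    rw [Finset.sum_congr rfl h1, Finset.sum_comm]
    refine Finset.sum_congr rfl fun v _ => ?_
    rw [Finset.mul_sum, Finset.sum_mul]
  -- the factor of the third encircling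
  have hE1 : ∀ v ∈ colors N r, EE N r (-1) v = c0 * theta N r v * Smat N r (vac N) v := by
    intro v _
    have h1 := hR0 v (vac N)
    rw [theta_vac, mul_one, Smat_symm N r v (vac N)] at h1
    rw [← h1, EE]
    refine Finset.sum_congr rfl fun x hx => ?_
    have h2 : (starRingEnd ℂ) (Smat N r x (vac N)) = (S0 N r x : ℂ) := by
      rw [Smat_symm, ← S0_eq hN0 hr hx, Complex.conj_ofReal]
    rw [h2, Smat_symm N r v x, zpow_neg_one]
    ring
  -- step 4
  have s4 : ∀ l, alc r l → TT N r K (-1) (fun l => theta N r l *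
      TT N r K' (2 * N - 1) (TT N r K' (-2 * N - 1) g0) l) l =
      gS N r (fun v => c1⁻¹ *
        ∑ u ∈ colors N r, WW N r u * (starRingEnd ℂ) (Smat N r v u)) l := by
    intro l hl
    rw [TT_congr hcK (-1) s3 l hl, TT_gS hK0 _ _ l hl, gS, gS]
    refine Finset.sum_congr rfl fun v hv => ?_
    have h2 := hSne v hv
    have h3 := theta_ne N r v
    rw [add_zero, hE1 v hv]
    field_simp
  have s5 : ∀ l, alc r l → TT N r K (-2 * N) (TT N r K (-1) (fun l => theta N r l *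
      TT N r K' (2 * N - 1) (TT N r K' (-2 * N - 1) g0) l)) l =
      gS N r (fun v => (c1⁻¹ * ∑ u ∈ colors N r, WW N r u * (starRingEnd ℂ) (Smat N r v u)) *
        (EE N r (-2 * N + 0) v / Smat N r (vac N) v)) l := by
    intro l hl
    rw [TT_congr hcK (-2 * N) s4 l hl, TT_gS hK0 _ _ l hl]
  refine ⟨c1⁻¹, by rw [norm_inv, hc1, inv_one], ?_⟩
  rw [TT_congr hcK (2 * N) s5 (vac N) hvac, TT_gS hK0 _ _ (vac N) hvac, gS, Zred, map_sum,
    Finset.mul_sum]
  refine Finset.sum_congr rfl fun v hv => ?_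
  rw [map_sum, Finset.mul_sum, Finset.mul_sum, Finset.sum_mul, Finset.sum_mul, Finset.sum_mul]
  refine Finset.sum_congr rfl fun u hu => ?_
  have h2 := hSne v hv
  rw [add_zero, add_zero, map_mul, Complex.conj_ofReal, Complex.ofReal_mul, ← WW_eq hN0 hr hv,
    ← WW_eq hN0 hr hu]
  have h4 : WW N r v = EE N r (2 * N) v * EE N r (-2 * N) v / Smat N r (vac N) v := rfl
  rw [h4]
  field_simp

end Pool.Agent.Helper24.RTE
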